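import Pool.Graph.R_pool_sql_team_seeded_2aa45f1a.Q290.NF.Basic

set_option autoImplicit false

/-!
# The zeros of `y` and the order at one prime
-/

namespace Pool.Agent.Helper56.RX

open NumberField IsDedekindDomain Height Polynomial Pool.Agent.Q290.NF

theorem gain' (K : Type) [Field K] [NumberField K] (y : K) (hy : y ≠ 0)
    (v₀ : HeightOneSpectrum (𝓞 K)) :
    wt (fun v : HeightOneSpectrum (𝓞 K) => v.valuation K y < 1) - Real.log (FinitePlace.mk v₀ y) ≤
      logHeight₁ y + ell v₀ := by
  classical
  obtain ⟨x, hx⟩ : ∃ x : K, x = y⁻¹ := ⟨_, rfl⟩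
  have hP : (fun v : HeightOneSpectrum (𝓞 K) => v.valuation K y < 1) =
      fun v : HeightOneSpectrum (𝓞 K) => 1 < v.valuation K x := by
    funext v
    have h0 : v.valuation K y ≠ 0 := (Valuation.ne_zero_iff _).2 hy
    rw [hx, map_inv₀]
    exact propext (one_lt_inv₀ (zero_lt_iff.2 h0)).symm
  have hh : logHeight₁ y = logHeight₁ x := by
    rw [hx, logHeight₁_inv]
  have hl : - Real.log (FinitePlace.mk v₀ y) = Real.log (FinitePlace.mk v₀ x) := by
    rw [hx, map_inv₀, Real.log_inv]
  rw [hP, hh, sub_eq_add_neg, hl, NumberField.logHeight₁_eq]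
  have h1 : 0 ≤ ∑ w : InfinitePlace K, (w.mult : ℝ) * Real.posLog (w x) :=
    Finset.sum_nonneg fun w _ => mul_nonneg (Nat.cast_nonneg _) Real.posLog_nonneg
  have h2 : ∑ᶠ w : FinitePlace K, Real.posLog (w x) =
      ∑ᶠ v : HeightOneSpectrum (𝓞 K), Real.posLog (FinitePlace.mk v x) :=
    (finsum_comp_equiv FinitePlace.equivHeightOneSpectrum.symm).symm
  have hf2 : (Function.support fun v : HeightOneSpectrum (𝓞 K) =>
      if v = v₀ then Real.log (FinitePlace.mk v₀ x) - ell v₀ else 0).Finite := by
    refine (Set.finite_singleton v₀).subset fun v hv => ?_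
    rw [Function.mem_support] at hv
    by_contra h
    rw [Set.mem_singleton_iff] at h
    exact hv (if_neg h)
  have hf1 : (Function.support (ind fun v : HeightOneSpectrum (𝓞 K) =>
      1 < v.valuation K x)).Finite := (fin_pole x).subset (supp_sub _)
  have h3 : wt (fun v : HeightOneSpectrum (𝓞 K) => 1 < v.valuation K x) +
      (Real.log (FinitePlace.mk v₀ x) - ell v₀) ≤
      ∑ᶠ v : HeightOneSpectrum (𝓞 K), Real.posLog (FinitePlace.mk v x) := by
    have e : (Real.log (FinitePlace.mk v₀ x) - ell v₀) =
        ∑ᶠ v : HeightOneSpectrum (𝓞 K),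
          (if v = v₀ then Real.log (FinitePlace.mk v₀ x) - ell v₀ else 0) := by
      rw [finsum_eq_single _ v₀ fun v hv => if_neg hv, if_pos rfl]
    rw [e]
    unfold wt
    rw [← finsum_add_distrib hf1 hf2]
    refine finsum_le_finsum' ?_ ?_ fun v => ?_
    · refine (hf1.union hf2).subset fun v hv => ?_
      rw [Function.mem_support] at hv
      by_contra h
      rw [Set.mem_union, not_or, Function.mem_support, Function.mem_support, not_not, not_not] at h
      exact hv (by rw [h.1, h.2, add_zero])
    · refine (fin_pole x).subset fun v hv => ?_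
      rw [Function.mem_support] at hv
      by_contra h
      rw [Set.mem_ofPred_eq, not_lt] at h
      apply hv
      rw [Real.posLog_eq_zero_iff, abs_of_nonneg (apply_nonneg _ _)]
      exact mk_le_one.2 h
    · by_cases hv0 : v = v₀
      · subst hv0
        rw [if_pos rfl]
        have h4 : ind (fun v : HeightOneSpectrum (𝓞 K) => 1 < v.valuation K x) v ≤ ell v := by
          by_cases h : 1 < v.valuation K x
          · rw [ind_pos (P := fun v => 1 < v.valuation K x) h]
          · rw [ind_neg (P := fun v => 1 < v.valuation K x) h]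
            exact (ell_pos v).le
        have h5 : Real.log (FinitePlace.mk v x) ≤ Real.posLog (FinitePlace.mk v x) := by
          rw [Real.posLog]
          exact le_max_right _ _
        linarith
      · rw [if_neg hv0, add_zero]
        by_cases h : 1 < v.valuation K x
        · rw [ind_pos (P := fun v => 1 < v.valuation K x) h]
          have h4 := norm_le_mk h
          have h5 : (1 : ℝ) < (Ideal.absNorm v.asIdeal : ℝ) := by
            exact_mod_cast HeightOneSpectrum.one_lt_absNorm v
          rw [Real.posLog_eq_log (by rw [abs_of_nonneg (apply_nonneg _ _)]; linarith)]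
          exact Real.log_le_log (by linarith) h4
        · rw [ind_neg (P := fun v => 1 < v.valuation K x) h]
          exact Real.posLog_nonneg
  rw [h2]
  linarith

end Pool.Agent.Helper56.RX
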